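import Pool.Agent.Q264.PD.Stm

/-!
# Project PD: cutoff functions with small `∫ |φ_u φ_v|` (job CUT)
-/

set_option autoImplicit false

open MeasureTheory Complex Filter Metric Set Topology
open scoped ContDiff

namespace Pool.Agent.Q277.PD

open Pool.Agent.Q264.PD Real


/-- the derivative of the smooth transition -/
noncomputable def sd (x : ℝ) : ℝ := deriv smoothTransition x

lemma sd_has (x : ℝ) : HasDerivAt smoothTransition (sd x) x :=
  ((smoothTransition.contDiff (n := 1)).differentiable (by norm_num) x).hasDerivAt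

lemma sd_cont : Continuous sd := (smoothTransition.contDiff (n := 1)).continuous_deriv (by norm_num)

lemma sd_zero_of_not {x : ℝ} (hx : x ∉ Icc (0 : ℝ) 1) : sd x = 0 := by
  rw [mem_Icc, not_and_or] at hx
  push Not at hx
  rcases hx with h | h
  · have : smoothTransition =ᶠ[𝓝 x] fun _ => 0 := by
      filter_upwards [Iio_mem_nhds h] with y hy
      exact smoothTransition.zero_of_nonpos (le_of_lt hy)
    unfold sd
    rw [this.deriv_eq]; simp
  · have : smoothTransition =ᶠ[𝓝 x] fun _ => 1 := by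
      filter_upwards [Ioi_mem_nhds h] with y hy
      exact smoothTransition.one_of_one_le (le_of_lt hy)
    unfold sd
    rw [this.deriv_eq]; simp

lemma sd_supp : HasCompactSupport sd :=
  HasCompactSupport.intro isCompact_Icc fun _ hx => sd_zero_of_not hx

lemma sd_int : Integrable (fun x => |sd x|) := (sd_cont.integrable_of_hasCompactSupport sd_supp).abs

lemma sd_bdd : ∃ S : ℝ, 0 < S ∧ ∀ x, |sd x| ≤ S := by
  obtain ⟨C, hC⟩ := sd_cont.bounded_above_of_compact_support sd_supp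
  exact ⟨max C 1, by positivity, fun x => (by simpa using hC x : |sd x| ≤ C).trans (le_max_left _ _)⟩

/-- the cutoff on the line -/
noncomputable def aa (c δ u : ℝ) : ℝ := smoothTransition ((c - u) / δ) * smoothTransition ((c + u) / δ)

/-- the derivative of `aa` -/
noncomputable def ad (c δ u : ℝ) : ℝ :=
  -(sd ((c - u) / δ) / δ) * smoothTransition ((c + u) / δ) +
    smoothTransition ((c - u) / δ) * (sd ((c + u) / δ) / δ)

/-- the bound for the derivative -/
noncomputable def pp (c δ u : ℝ) : ℝ := |sd ((c - u) / δ)| / δ + |sd ((c + u) / δ)| / δ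

lemma aa_nonneg (c δ u : ℝ) : 0 ≤ aa c δ u := mul_nonneg (smoothTransition.nonneg _) (smoothTransition.nonneg _)

lemma aa_le (c δ u : ℝ) : aa c δ u ≤ 1 :=
  mul_le_one₀ (smoothTransition.le_one _) (smoothTransition.nonneg _) (smoothTransition.le_one _)

lemma aa_one {c δ u : ℝ} (hδ : 0 < δ) (h : |u| ≤ c - δ) : aa c δ u = 1 := by
  unfold aa
  rw [abs_le] at h
  rw [smoothTransition.one_of_one_le (by rw [le_div_iff₀ hδ]; linarith),
    smoothTransition.one_of_one_le (by rw [le_div_iff₀ hδ]; linarith), mul_one]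

lemma aa_zero {c δ u : ℝ} (hδ : 0 < δ) (h : c ≤ |u|) : aa c δ u = 0 := by
  unfold aa
  rcases le_abs.1 h with h | h
  · rw [smoothTransition.zero_of_nonpos (div_nonpos_of_nonpos_of_nonneg (by linarith) hδ.le), zero_mul]
  · rw [smoothTransition.zero_of_nonpos (x := (c + u) / δ) (div_nonpos_of_nonpos_of_nonneg (by linarith) hδ.le),
      mul_zero]

lemma aa_has (c δ u : ℝ) : HasDerivAt (aa c δ) (ad c δ u) u := by
  unfold aa ad
  have h1 : HasDerivAt (fun u => (c - u) / δ) (-1 / δ) u := ((hasDerivAt_id u).const_sub c).div_const δ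
  have h2 : HasDerivAt (fun u => (c + u) / δ) (1 / δ) u := ((hasDerivAt_id u).const_add c).div_const δ
  have h3 := (sd_has ((c - u) / δ)).comp u h1
  have h4 := (sd_has ((c + u) / δ)).comp u h2
  have h5 := h3.mul h4
  refine h5.congr_deriv ?_
  simp only [Function.comp_def]
  ring

lemma aa_smooth (c δ : ℝ) : ContDiff ℝ ∞ (aa c δ) := by
  unfold aa
  exact (smoothTransition.contDiff.comp (by fun_prop)).mul (smoothTransition.contDiff.comp (by fun_prop))

lemma pp_nonneg {c δ : ℝ} (hδ : 0 < δ) (u : ℝ) : 0 ≤ pp c δ u := by unfold pp; positivity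

lemma ad_le {c δ : ℝ} (hδ : 0 < δ) (u : ℝ) : |ad c δ u| ≤ pp c δ u := by
  unfold ad pp
  have h1 := smoothTransition.nonneg ((c - u) / δ)
  have h2 := smoothTransition.le_one ((c - u) / δ)
  have h3 := smoothTransition.nonneg ((c + u) / δ)
  have h4 := smoothTransition.le_one ((c + u) / δ)
  calc _ ≤ |-(sd ((c - u) / δ) / δ) * smoothTransition ((c + u) / δ)| +
        |smoothTransition ((c - u) / δ) * (sd ((c + u) / δ) / δ)| := abs_add_le _ _
    _ = |sd ((c - u) / δ)| / δ * smoothTransition ((c + u) / δ) +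
        smoothTransition ((c - u) / δ) * (|sd ((c + u) / δ)| / δ) := by
      rw [abs_mul, abs_mul, abs_neg, abs_div, abs_div, abs_of_pos hδ, abs_of_nonneg h1, abs_of_nonneg h3]
    _ ≤ |sd ((c - u) / δ)| / δ * 1 + 1 * (|sd ((c + u) / δ)| / δ) := by gcongr
    _ = _ := by ring

lemma pp_int {c δ : ℝ} (hδ : 0 < δ) : Integrable (pp c δ) ∧ (∫ u, pp c δ u) = 2 * ∫ x, |sd x| := by
  have h0 : Integrable (fun x : ℝ => |sd (x / δ)| / δ) :=
    ((sd_int.comp_div (R := δ) hδ.ne').div_const δ)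
  have e0 : (∫ x : ℝ, |sd (x / δ)| / δ) = ∫ x, |sd x| := by
    rw [integral_div, Measure.integral_comp_div (fun x => |sd x|) δ, abs_of_pos hδ, smul_eq_mul]
    field_simp
  have h1 : Integrable (fun u : ℝ => |sd ((c - u) / δ)| / δ) := h0.comp_sub_left c
  have h2 : Integrable (fun u : ℝ => |sd ((c + u) / δ)| / δ) := h0.comp_add_left c
  refine ⟨h1.add h2, ?_⟩
  unfold pp
  rw [integral_add h1 h2, integral_sub_left_eq_self (fun x : ℝ => |sd (x / δ)| / δ) volume c,
    integral_add_left_eq_self (fun x : ℝ => |sd (x / δ)| / δ) c, e0]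
  ring

/-- Fubini in the plane -/
lemma fub {f g : ℝ → ℝ} (hf : Integrable f) (hg : Integrable g) :
    Integrable (fun z : ℂ => f z.re * g z.im) ∧ (∫ z : ℂ, f z.re * g z.im) = (∫ x, f x) * ∫ y, g y := by
  have hp := Complex.volume_preserving_equiv_real_prod
  have hi : Integrable (fun p : ℝ × ℝ => f p.1 * g p.2) (volume.prod volume) := hf.mul_prod hg
  constructor
  · have := hp.integrable_comp_emb Complex.measurableEquivRealProd.measurableEmbedding (g := fun p : ℝ × ℝ => f p.1 * g p.2)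
    exact this.2 hi
  · have h1 := hp.integral_comp' (g := fun p : ℝ × ℝ => f p.1 * g p.2)
    have h2 := integral_prod_mul (μ := (volume : Measure ℝ)) (ν := (volume : Measure ℝ)) f g
    rw [← h2, ← Measure.volume_eq_prod]
    exact h1

/-- the product of two cutoffs -/
noncomputable def AA (c d δ : ℝ) (z : ℂ) : ℝ := aa c δ z.re * aa d δ z.im

lemma AA_smooth (c d δ : ℝ) : ContDiff ℝ ∞ (AA c d δ) := by
  unfold AA
  exact ((aa_smooth c δ).comp Complex.reCLM.contDiff).mul ((aa_smooth d δ).comp Complex.imCLM.contDiff)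

lemma AA_has (c d δ : ℝ) (z : ℂ) : HasFDerivAt (AA c d δ)
    (aa c δ z.re • (ad d δ z.im • Complex.imCLM) + aa d δ z.im • (ad c δ z.re • Complex.reCLM)) z := by
  have h1 : HasFDerivAt (fun z : ℂ => aa c δ z.re) (ad c δ z.re • Complex.reCLM) z :=
    (aa_has c δ z.re).comp_hasFDerivAt z Complex.reCLM.hasFDerivAt
  have h2 : HasFDerivAt (fun z : ℂ => aa d δ z.im) (ad d δ z.im • Complex.imCLM) z :=
    (aa_has d δ z.im).comp_hasFDerivAt z Complex.imCLM.hasFDerivAt
  exact h1.mul h2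

lemma AA_nonneg (c d δ : ℝ) (z : ℂ) : 0 ≤ AA c d δ z := mul_nonneg (aa_nonneg _ _ _) (aa_nonneg _ _ _)

lemma AA_du {c d δ : ℝ} (hδ : 0 < δ) (z : ℂ) : |fderiv ℝ (AA c d δ) z 1| ≤ pp c δ z.re := by
  rw [(AA_has c d δ z).fderiv]
  simp only [add_apply, smul_apply, Complex.reCLM_apply, Complex.imCLM_apply, Complex.one_re,
    Complex.one_im, smul_eq_mul, mul_zero, mul_one, zero_add]
  rw [abs_mul, abs_of_nonneg (aa_nonneg _ _ _)]
  calc _ ≤ 1 * |ad c δ z.re| := by gcongr; exact aa_le _ _ _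
    _ ≤ _ := by rw [one_mul]; exact ad_le hδ _

lemma AA_dv {c d δ : ℝ} (hδ : 0 < δ) (z : ℂ) : |fderiv ℝ (AA c d δ) z I| ≤ pp d δ z.im := by
  rw [(AA_has c d δ z).fderiv]
  simp only [add_apply, smul_apply, Complex.reCLM_apply, Complex.imCLM_apply, Complex.I_re,
    Complex.I_im, smul_eq_mul, mul_zero, mul_one, add_zero]
  rw [abs_mul, abs_of_nonneg (aa_nonneg _ _ _)]
  calc _ ≤ 1 * |ad d δ z.im| := by gcongr; exact aa_le _ _ _
    _ ≤ _ := by rw [one_mul]; exact ad_le hδ _

section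
variable {J : ℕ} (α β : Fin J → ℝ) (δ : ℝ)

/-- one layer -/
noncomputable def lay (i : ℕ) (z : ℂ) : ℝ :=
  smoothTransition (∑ j, AA (α j + (i + 1) * δ) (β j + (i + 1) * δ) δ z)

lemma lay_smooth (i : ℕ) : ContDiff ℝ ∞ (lay α β δ i) := by
  unfold lay
  exact smoothTransition.contDiff.comp (ContDiff.sum fun j _ => AA_smooth _ _ _)

lemma lay_nonneg (i : ℕ) (z : ℂ) : 0 ≤ lay α β δ i z := smoothTransition.nonneg _

lemma lay_le (i : ℕ) (z : ℂ) : lay α β δ i z ≤ 1 := smoothTransition.le_one _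

/-- the sets `U i` -/
def UU (i : ℕ) : Set ℂ := {z | ∃ j, |z.re| ≤ α j + i * δ ∧ |z.im| ≤ β j + i * δ}

lemma UU_mono (hδ : 0 < δ) {i k : ℕ} (h : i ≤ k) : UU α β δ i ⊆ UU α β δ k := by
  rintro z ⟨j, h1, h2⟩
  have : (i : ℝ) * δ ≤ k * δ := by
    have : (i : ℝ) ≤ k := by exact_mod_cast h
    gcongr
  exact ⟨j, by linarith, by linarith⟩

lemma lay_one (hδ : 0 < δ) {i : ℕ} {z : ℂ} (hz : z ∈ UU α β δ i) : lay α β δ i z = 1 := by
  obtain ⟨j, h1, h2⟩ := hz
  apply smoothTransition.one_of_one_le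
  have hj : AA (α j + (i + 1) * δ) (β j + (i + 1) * δ) δ z = 1 := by
    unfold AA
    rw [aa_one hδ (by linarith), aa_one hδ (by linarith), one_mul]
  refine hj.symm.le.trans ?_
  exact Finset.single_le_sum (f := fun j => AA (α j + (i + 1) * δ) (β j + (i + 1) * δ) δ z)
    (fun k _ => AA_nonneg _ _ _ _) (Finset.mem_univ j)

lemma lay_zero (hδ : 0 < δ) {i : ℕ} {z : ℂ} (hz : z ∉ UU α β δ (i + 1)) : lay α β δ i z = 0 := by
  apply smoothTransition.zero_of_nonpos
  apply le_of_eq
  apply Finset.sum_eq_zero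
  intro j _
  by_contra hne
  apply hz
  refine ⟨j, ?_, ?_⟩
  · by_contra hlt
    push Not at hlt
    push_cast at hlt
    apply hne
    unfold AA
    rw [aa_zero hδ hlt.le, zero_mul]
  · by_contra hlt
    push Not at hlt
    push_cast at hlt
    apply hne
    unfold AA
    rw [aa_zero (u := z.im) hδ hlt.le, mul_zero]

lemma lay_fderiv_one (hδ : 0 < δ) {i : ℕ} {z : ℂ} (hz : z ∈ UU α β δ i) : fderiv ℝ (lay α β δ i) z = 0 := by
  apply IsLocalMax.fderiv_eq_zero
  refine Eventually.of_forall fun w => ?_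
  rw [lay_one α β δ hδ hz]
  exact lay_le _ _ _ _ _

lemma lay_fderiv_zero (hδ : 0 < δ) {i : ℕ} {z : ℂ} (hz : z ∉ UU α β δ (i + 1)) :
    fderiv ℝ (lay α β δ i) z = 0 := by
  apply IsLocalMin.fderiv_eq_zero
  refine Eventually.of_forall fun w => ?_
  rw [lay_zero α β δ hδ hz]
  exact lay_nonneg _ _ _ _ _

/-- at most one layer is not stationary -/
lemma lay_one_of (hδ : 0 < δ) {i k : ℕ} (hik : i < k) (z : ℂ) :
    fderiv ℝ (lay α β δ i) z = 0 ∨ fderiv ℝ (lay α β δ k) z = 0 := by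
  by_cases hz : z ∈ UU α β δ (i + 1)
  · right
    exact lay_fderiv_one α β δ hδ (UU_mono α β δ hδ (by omega) hz)
  · left
    exact lay_fderiv_zero α β δ hδ hz

lemma lay_cross (hδ : 0 < δ) {i k : ℕ} (hik : i ≠ k) (z x y : ℂ) :
    fderiv ℝ (lay α β δ i) z x * fderiv ℝ (lay α β δ k) z y = 0 := by
  rcases lt_or_gt_of_ne hik with h | h
  · rcases lay_one_of α β δ hδ h z with h1 | h1 <;> rw [h1] <;> simp
  · rcases lay_one_of α β δ hδ h z with h1 | h1 <;> rw [h1] <;> simp

lemma lay_bd {S : ℝ} (hS : ∀ x, |sd x| ≤ S) (hS0 : 0 < S) (i : ℕ) (z w : ℂ) (q : Fin J → ℝ)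
    (hq : ∀ j, |fderiv ℝ (AA (α j + (i + 1) * δ) (β j + (i + 1) * δ) δ) z w| ≤ q j) :
    |fderiv ℝ (lay α β δ i) z w| ≤ S * ∑ j, q j := by
  have h1 : HasFDerivAt (fun z => ∑ j, AA (α j + (i + 1) * δ) (β j + (i + 1) * δ) δ z)
      (∑ j, fderiv ℝ (AA (α j + (i + 1) * δ) (β j + (i + 1) * δ) δ) z) z := by
    apply HasFDerivAt.fun_sum
    intro j _
    exact ((AA_smooth _ _ _).differentiable (by simp) z).hasFDerivAt
  have h2 := (sd_has (∑ j, AA (α j + (i + 1) * δ) (β j + (i + 1) * δ) δ z)).comp_hasFDerivAt z h1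
  have h3 : fderiv ℝ (lay α β δ i) z = _ := h2.fderiv
  rw [h3]
  simp only [smul_apply, smul_eq_mul, sum_apply]
  rw [abs_mul]
  have h4 : |∑ j, fderiv ℝ (AA (α j + (i + 1) * δ) (β j + (i + 1) * δ) δ) z w| ≤ ∑ j, q j :=
    (Finset.abs_sum_le_sum_abs _ _).trans (Finset.sum_le_sum fun j _ => hq j)
  exact mul_le_mul (hS _) h4 (abs_nonneg _) hS0.le

end

theorem t_CUT (hRECT : S_RECT) : S_CUT := by
  intro r hr hr1 ε hε
  obtain ⟨J, α, β, τ, ρ, hτ, hρ, hρ1, hab, hcov, hsq⟩ := hRECT r hr hr1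
  obtain ⟨S, hS0, hS⟩ := sd_bdd
  set C : ℝ := ∫ x, |sd x| with hC
  have hC0 : 0 ≤ C := integral_nonneg fun x => abs_nonneg _
  obtain ⟨N, hN⟩ := exists_nat_gt (4 * C ^ 2 * S ^ 2 * J ^ 2 / ε)
  have hN0 : (0 : ℝ) < N := lt_of_le_of_lt (by positivity) hN
  set δ : ℝ := τ / N with hδdef
  have hδ : 0 < δ := div_pos hτ hN0
  have hNδ : N * δ = τ := by rw [hδdef]; field_simp
  set f : ℕ → ℂ → ℝ := fun i => lay α β δ i with hf
  have hfs : ∀ i, ContDiff ℝ ∞ (f i) := fun i => lay_smooth α β δ i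
  refine ⟨fun z => (1 / N) * ∑ i ∈ Finset.range N, f i z, (ρ + 1) / 2, by linarith, by linarith, ?_, ?_, ?_, ?_⟩
  · exact contDiff_const.mul (ContDiff.sum fun i _ => hfs i)
  · intro z hz
    obtain ⟨j, h1, h2⟩ := hcov z hz
    have hU : z ∈ UU α β δ 0 := ⟨j, by simpa using h1, by simpa using h2⟩
    have : ∀ i ∈ Finset.range N, f i z = 1 := fun i _ =>
      lay_one α β δ hδ (UU_mono α β δ hδ (Nat.zero_le i) hU)
    show (1 / (N : ℝ)) * ∑ i ∈ Finset.range N, f i z = 1
    rw [Finset.sum_congr rfl this]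
    simp only [Finset.sum_const, Finset.card_range, nsmul_eq_mul, mul_one]
    field_simp
  · intro z hz
    have hz' : ∀ i ∈ Finset.range N, f i z = 0 := by
      intro i hi
      apply lay_zero α β δ hδ
      rintro ⟨j, h1, h2⟩
      have hi' : ((i + 1 : ℕ) : ℝ) ≤ N := by
        have := Finset.mem_range.1 hi
        exact_mod_cast this
      have h3 : ((i + 1 : ℕ) : ℝ) * δ ≤ τ := by
        rw [← hNδ]; gcongr
      have h4 : |z.re| ≤ α j + τ := by linarith
      have h5 : |z.im| ≤ β j + τ := by linarith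
      have h6 : ‖z‖ ^ 2 ≤ ρ ^ 2 := by
        rw [Complex.sq_norm, Complex.normSq_apply]
        have e1 : z.re * z.re = |z.re| ^ 2 := by rw [sq_abs]; ring
        have e2 : z.im * z.im = |z.im| ^ 2 := by rw [sq_abs]; ring
        rw [e1, e2]
        refine le_trans ?_ (hsq j)
        have := abs_nonneg z.re
        have := abs_nonneg z.im
        gcongr
      have h7 : ‖z‖ ≤ ρ := by
        have : 0 ≤ ρ := by linarith
        exact (sq_le_sq₀ (norm_nonneg _) this).1 h6
      linarith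
    show (1 / (N : ℝ)) * ∑ i ∈ Finset.range N, f i z = 0
    rw [Finset.sum_eq_zero hz', mul_zero]
  · -- the integral
    have hfd : ∀ z w : ℂ, fderiv ℝ (fun z => (1 / (N : ℝ)) * ∑ i ∈ Finset.range N, f i z) z w =
        (1 / N) * ∑ i ∈ Finset.range N, fderiv ℝ (f i) z w := by
      intro z w
      have h1 : HasFDerivAt (fun z => ∑ i ∈ Finset.range N, f i z)
          (∑ i ∈ Finset.range N, fderiv ℝ (f i) z) z := by
        apply HasFDerivAt.fun_sum
        intro i _
        exact ((hfs i).differentiable (by simp) z).hasFDerivAt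
      have h2 := h1.const_mul (1 / (N : ℝ))
      rw [h2.fderiv]
      simp
    have hpt : ∀ z : ℂ, |du (fun z => (1 / (N : ℝ)) * ∑ i ∈ Finset.range N, f i z) z *
        dv (fun z => (1 / (N : ℝ)) * ∑ i ∈ Finset.range N, f i z) z| ≤
        (1 / N) ^ 2 * ∑ i ∈ Finset.range N, S ^ 2 * ∑ j, ∑ k,
          pp (α j + (i + 1) * δ) δ z.re * pp (β k + (i + 1) * δ) δ z.im := by
      intro z
      unfold du dv
      rw [hfd, hfd]
      have e2 : (∑ i ∈ Finset.range N, fderiv ℝ (f i) z 1) * (∑ k ∈ Finset.range N, fderiv ℝ (f k) z I) =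
          ∑ i ∈ Finset.range N, fderiv ℝ (f i) z 1 * fderiv ℝ (f i) z I := by
        rw [Finset.sum_mul_sum]
        apply Finset.sum_congr rfl
        intro i hi
        rw [Finset.sum_eq_single i]
        · intro k _ hki
          exact lay_cross α β δ hδ hki.symm z 1 I
        · intro h; exact absurd hi h
      rw [show (1 / (N : ℝ)) * (∑ i ∈ Finset.range N, fderiv ℝ (f i) z 1) *
          (1 / (N : ℝ) * ∑ i ∈ Finset.range N, fderiv ℝ (f i) z I) =
          (1 / N) ^ 2 * ((∑ i ∈ Finset.range N, fderiv ℝ (f i) z 1) *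
            ∑ i ∈ Finset.range N, fderiv ℝ (f i) z I) by ring, e2, abs_mul,
        abs_of_nonneg (by positivity : (0 : ℝ) ≤ (1 / N) ^ 2)]
      gcongr
      refine (Finset.abs_sum_le_sum_abs _ _).trans (Finset.sum_le_sum fun i _ => ?_)
      rw [abs_mul]
      have h1 := lay_bd α β δ hS hS0 i z 1 (fun j => pp (α j + (i + 1) * δ) δ z.re) (fun j => AA_du hδ z)
      have h2 := lay_bd α β δ hS hS0 i z I (fun j => pp (β j + (i + 1) * δ) δ z.im) (fun j => AA_dv hδ z)
      calc |fderiv ℝ (f i) z 1| * |fderiv ℝ (f i) z I| ≤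
            (S * ∑ j, pp (α j + (i + 1) * δ) δ z.re) * (S * ∑ j, pp (β j + (i + 1) * δ) δ z.im) :=
          mul_le_mul h1 h2 (abs_nonneg _) (mul_nonneg hS0.le (Finset.sum_nonneg fun j _ => pp_nonneg hδ _))
        _ = _ := by
          rw [← Finset.sum_mul_sum]
          ring
    have hI : ∀ c d : ℝ, Integrable (fun z : ℂ => pp c δ z.re * pp d δ z.im) ∧
        (∫ z : ℂ, pp c δ z.re * pp d δ z.im) = 4 * C ^ 2 := by
      intro c d
      obtain ⟨h1, h2⟩ := pp_int (c := c) hδ
      obtain ⟨h3, h4⟩ := pp_int (c := d) hδ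
      obtain ⟨h5, h6⟩ := fub h1 h3
      refine ⟨h5, ?_⟩
      rw [h6, h2, h4, ← hC]
      ring
    have hint : Integrable (fun z : ℂ => (1 / (N : ℝ)) ^ 2 * ∑ i ∈ Finset.range N, S ^ 2 * ∑ j : Fin J, ∑ k : Fin J,
          pp (α j + (i + 1) * δ) δ z.re * pp (β k + (i + 1) * δ) δ z.im) := by
      apply Integrable.const_mul
      apply integrable_finsetSum
      intro i _
      apply Integrable.const_mul
      apply integrable_finsetSum
      intro j _
      apply integrable_finsetSum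
      intro k _
      exact (hI _ _).1
    refine (integral_mono_of_nonneg (Eventually.of_forall fun z => abs_nonneg _) hint
      (Eventually.of_forall hpt)).trans ?_
    rw [integral_const_mul, integral_finsetSum _ (fun i _ => ((integrable_finsetSum _ fun j _ =>
      integrable_finsetSum _ fun k _ => (hI _ _).1).const_mul _))]
    have e3 : ∀ i ∈ Finset.range N, (∫ z : ℂ, S ^ 2 * ∑ j : Fin J, ∑ k : Fin J,
          pp (α j + (i + 1) * δ) δ z.re * pp (β k + (i + 1) * δ) δ z.im) = S ^ 2 * (J * (J * (4 * C ^ 2))) := by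
      intro i _
      rw [integral_const_mul, integral_finsetSum _ (fun j _ =>
        integrable_finsetSum _ fun k _ => (hI _ _).1)]
      congr 1
      have : ∀ j : Fin J, (∫ z : ℂ, ∑ k : Fin J, pp (α j + (i + 1) * δ) δ z.re * pp (β k + (i + 1) * δ) δ z.im) =
          J * (4 * C ^ 2) := by
        intro j
        rw [integral_finsetSum _ (fun k _ => (hI _ _).1)]
        simp only [(hI _ _).2, Finset.sum_const, Finset.card_univ, Fintype.card_fin, nsmul_eq_mul]
      simp only [this, Finset.sum_const, Finset.card_univ, Fintype.card_fin, nsmul_eq_mul]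
    rw [Finset.sum_congr rfl e3]
    simp only [Finset.sum_const, Finset.card_range, nsmul_eq_mul]
    rw [div_lt_iff₀ hε] at hN
    have e4 : (1 / (N : ℝ)) ^ 2 * (N * (S ^ 2 * (J * (J * (4 * C ^ 2))))) = (4 * C ^ 2 * S ^ 2 * J ^ 2) / N := by
      field_simp
    rw [e4, div_le_iff₀ hN0]
    linarith

end Pool.Agent.Q277.PD
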