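import Pool.Agent.Q264.PD.Stm
import Pool.Agent.Helper240.ZFM.B1

/-! # Project PD, job GR: distortion of univalent functions near the centre -/

set_option autoImplicit false
set_option linter.all false

open MeasureTheory Complex Filter Metric Set
open scoped ContDiff

namespace Pool.Agent.Q277.PD

open Pool.Agent.Q264.PD

theorem exp_le_four : Real.exp (5 / 4) ≤ 4 := by
  have h1 : Real.exp (5 / 4) ^ 4 = Real.exp 1 ^ 5 := by
    rw [← Real.exp_nat_mul, ← Real.exp_nat_mul]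
    congr 1
    norm_num
  have h2 : Real.exp 1 ^ 5 ≤ 3 ^ 5 := by
    have := Real.exp_one_lt_d9
    gcongr
    linarith
  by_contra hcon
  push Not at hcon
  have h3 : (4 : ℝ) ^ 4 < Real.exp (5 / 4) ^ 4 := by gcongr
  rw [h1] at h3
  norm_num at h2 h3
  linarith

theorem unit_case {ψ : ℂ → ℂ} (hd : DifferentiableOn ℂ ψ (ball 0 1)) (hi : InjOn ψ (ball 0 1))
    (h1 : deriv ψ 0 = 1) {ζ : ℂ} (hζ : ‖ζ‖ ≤ 1 / 4) : ‖deriv ψ ζ - 1‖ ≤ 20 * ‖ζ‖ := by
  have hb : ∀ z : ℂ, ‖z‖ ≤ 1 / 4 → z ∈ ball (0 : ℂ) 1 := by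
    intro z hz
    rw [mem_ball_zero_iff]
    linarith
  have hdd : ∀ z : ℂ, ‖z‖ ≤ 1 / 4 → HasDerivAt (deriv ψ) (deriv (deriv ψ) z) z := fun z hz =>
    ((hd.deriv isOpen_ball).differentiableAt (isOpen_ball.mem_nhds (hb z hz))).hasDerivAt
  have h2 : ∀ z : ℂ, ‖z‖ ≤ 1 / 4 → ‖deriv (deriv ψ) z‖ ≤ 5 * ‖deriv ψ z‖ := by
    intro z hz
    have h3 := ZFM.koebe_second hd hi (hb z hz)
    have h4 : ‖deriv (deriv ψ) z * (1 - ‖z‖ ^ 2 : ℝ)‖ ≤
        4 * ‖deriv ψ z‖ + ‖2 * (starRingEnd ℂ) z * deriv ψ z‖ := by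
      calc ‖deriv (deriv ψ) z * (1 - ‖z‖ ^ 2 : ℝ)‖ = ‖(deriv (deriv ψ) z * (1 - ‖z‖ ^ 2 : ℝ) -
            2 * (starRingEnd ℂ) z * deriv ψ z) + 2 * (starRingEnd ℂ) z * deriv ψ z‖ := by
            rw [sub_add_cancel]
        _ ≤ _ := (norm_add_le _ _).trans (add_le_add_left h3 _)
    have h5 : 0 ≤ ‖z‖ := norm_nonneg z
    have h6 : (15 : ℝ) / 16 ≤ 1 - ‖z‖ ^ 2 := by nlinarith
    rw [norm_mul, Complex.norm_real, Real.norm_of_nonneg (by linarith), norm_mul, norm_mul,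
      Complex.norm_ofNat, RCLike.norm_conj] at h4
    have h7 : 0 ≤ ‖deriv ψ z‖ := norm_nonneg _
    have h8 : 0 ≤ ‖deriv (deriv ψ) z‖ := norm_nonneg _
    nlinarith [mul_nonneg h8 (sub_nonneg.2 h6), mul_nonneg h7 (sub_nonneg.2 hz)]
  have h3 : ∀ z : ℂ, ‖z‖ ≤ 1 / 4 → ‖deriv ψ z‖ ≤ 4 := by
    intro z hz
    have hz' : ∀ t ∈ Icc (0 : ℝ) 1, ‖(t : ℂ) * z‖ ≤ 1 / 4 := by
      intro t ht
      rw [norm_mul, Complex.norm_real, Real.norm_of_nonneg ht.1]
      exact (mul_le_of_le_one_left (norm_nonneg z) ht.2).trans hz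
    have hder : ∀ t ∈ Icc (0 : ℝ) 1, HasDerivAt (fun s : ℝ => deriv ψ ((s : ℂ) * z))
        (deriv (deriv ψ) ((t : ℂ) * z) * z) t := by
      intro t ht
      have e1 := hdd _ (hz' t ht)
      have e2 : HasDerivAt (fun s : ℝ => (s : ℂ) * z) z t := by
        have := (Complex.ofRealCLM.hasDerivAt (x := t)).mul_const z
        simpa using this
      exact HasDerivAt.comp_of_eq t e1 e2 rfl
    have hg := norm_le_gronwallBound_of_norm_deriv_right_le
      (f := fun s : ℝ => deriv ψ ((s : ℂ) * z)) (f' := fun t : ℝ => deriv (deriv ψ) ((t : ℂ) * z) * z)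
      (δ := 1) (K := 5 / 4) (ε := 0) (a := 0) (b := 1)
      (fun t ht => (hder t ht).continuousAt.continuousWithinAt)
      (fun t ht => (hder t ⟨ht.1, ht.2.le⟩).hasDerivWithinAt)
      (by
        rw [Complex.ofReal_zero, zero_mul, h1, norm_one])
      (fun t ht => by
        have e1 := h2 _ (hz' t ⟨ht.1, ht.2.le⟩)
        rw [norm_mul, add_zero]
        have e2 : 0 ≤ ‖deriv ψ ((t : ℂ) * z)‖ := norm_nonneg _
        calc ‖deriv (deriv ψ) ((t : ℂ) * z)‖ * ‖z‖ ≤ (5 * ‖deriv ψ ((t : ℂ) * z)‖) * (1 / 4) :=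
              mul_le_mul e1 hz (norm_nonneg z) (by positivity)
          _ = _ := by ring)
      1 ⟨zero_le_one, le_rfl⟩
    rw [Complex.ofReal_one, one_mul, gronwallBound_ε0, sub_zero, mul_one, one_mul] at hg
    exact hg.trans exp_le_four
  have h4 := Convex.norm_image_sub_le_of_norm_hasDerivWithin_le
    (f := deriv ψ) (f' := deriv (deriv ψ)) (s := closedBall (0 : ℂ) (1 / 4)) (C := 20) (x := 0)
    (y := ζ) (fun z hz => (hdd z (mem_closedBall_zero_iff.1 hz)).hasDerivWithinAt)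
    (fun z hz => by
      have e1 := h2 z (mem_closedBall_zero_iff.1 hz)
      have e2 := h3 z (mem_closedBall_zero_iff.1 hz)
      linarith)
    (convex_closedBall _ _) (mem_closedBall_self (by norm_num)) (mem_closedBall_zero_iff.2 hζ)
  rw [h1, sub_zero] at h4
  exact h4

/-- **Job GR.** -/
theorem t_GR : S_GR := by
  refine ⟨20, by norm_num, ?_⟩
  intro G b hb hd hi h0 h1 w hw
  have hbc : (b : ℂ) ≠ 0 := by exact_mod_cast hb.ne'
  have hmap : ∀ ζ ∈ ball (0 : ℂ) 1, (b : ℂ) * ζ ∈ ball (0 : ℂ) b := by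
    intro ζ hζ
    rw [mem_ball_zero_iff] at hζ ⊢
    rw [norm_mul, Complex.norm_real, Real.norm_of_nonneg hb.le]
    exact mul_lt_of_lt_one_right hb hζ
  have hder : ∀ ζ : ℂ, deriv (fun ζ : ℂ => G ((b : ℂ) * ζ) / b) ζ = deriv G ((b : ℂ) * ζ) := by
    intro ζ
    rw [deriv_div_const, deriv_comp_mul_left (b : ℂ) G ζ, smul_eq_mul, mul_div_cancel_left₀ _ hbc]
  have hdψ : DifferentiableOn ℂ (fun ζ : ℂ => G ((b : ℂ) * ζ) / b) (ball 0 1) :=
    (hd.comp (differentiable_id.const_mul (b : ℂ)).differentiableOn hmap).div_const _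
  have hiψ : InjOn (fun ζ : ℂ => G ((b : ℂ) * ζ) / b) (ball 0 1) := by
    intro x hx y hy hxy
    have e1 : G ((b : ℂ) * x) = G ((b : ℂ) * y) := by
      have := (div_left_inj' hbc).1 hxy
      exact this
    exact mul_left_cancel₀ hbc (hi (hmap x hx) (hmap y hy) e1)
  have hz : ‖w / b‖ ≤ 1 / 4 := by
    rw [norm_div, Complex.norm_real, Real.norm_of_nonneg hb.le, div_le_iff₀ hb]
    linarith
  have h2 := unit_case hdψ hiψ (by rw [hder, mul_zero, h1]) hz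
  rw [hder, mul_div_cancel₀ _ hbc, norm_div, Complex.norm_real, Real.norm_of_nonneg hb.le] at h2
  rw [mul_div_assoc]
  exact h2

end Pool.Agent.Q277.PD
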