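import Pool.Agent.Q264.PD.Stm

/-!
# Project PD: the function `l` (job LA)
-/

set_option autoImplicit false

open MeasureTheory Complex Filter Metric Set Topology FourierTransform
open scoped ContDiff RealInnerProductSpace

namespace Pool.Agent.Q277.PD

open Pool.Agent.Q264.PD

noncomputable def ff (H : ℂ → ℂ) (ξ : ℂ) : ℂ := H ξ / (Real.pi * I * ξ)

lemma norm_ff (H : ℂ → ℂ) (ξ : ℂ) : ‖ff H ξ‖ = ‖H ξ‖ / (Real.pi * ‖ξ‖) := by
  unfold ff
  rw [norm_div, norm_mul, norm_mul, norm_I, mul_one, Complex.norm_real, Real.norm_eq_abs,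
    abs_of_pos Real.pi_pos]

lemma ff_meas {H : ℂ → ℂ} (hH : Continuous H) : AEStronglyMeasurable (ff H) := by
  unfold ff
  exact (hH.measurable.div (measurable_const.mul measurable_id)).aestronglyMeasurable

lemma int_pow8 : Integrable (fun v : ℂ => (1 + ‖v‖) ^ (-(8 : ℝ))) := by
  apply integrable_one_add_norm
  rw [Complex.finrank_real_complex]
  norm_num

lemma int_sq {H : ℂ → ℂ} (hH : Continuous H)
    (h2 : (∫⁻ ξ, ‖(((1 + ‖ξ‖) ^ 6 : ℝ) : ℂ) * H ξ‖ₑ ^ 2) < ⊤) :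
    Integrable (fun v : ℂ => ((1 + ‖v‖) ^ 6 * ‖H v‖) ^ 2) := by
  refine ⟨Continuous.aestronglyMeasurable (by fun_prop), ?_⟩
  unfold HasFiniteIntegral
  refine lt_of_le_of_lt (le_of_eq ?_) h2
  apply lintegral_congr
  intro v
  rw [← enorm_pow, ← ofReal_norm, ← ofReal_norm, norm_pow, norm_pow, norm_mul, norm_mul,
    Complex.norm_real, norm_norm]

/-- the common bound -/
noncomputable def bd (H : ℂ → ℂ) (v : ℂ) : ℝ :=
  ((1 + ‖v‖) ^ 6 * ‖H v‖) ^ 2 / 2 + (1 + ‖v‖) ^ (-(8 : ℝ)) / 2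

lemma bd_int {H : ℂ → ℂ} (hH : Continuous H)
    (h2 : (∫⁻ ξ, ‖(((1 + ‖ξ‖) ^ 6 : ℝ) : ℂ) * H ξ‖ₑ ^ 2) < ⊤) : Integrable (bd H) :=
  ((int_sq hH h2).div_const 2).add (int_pow8.div_const 2)

lemma bd_ge (H : ℂ → ℂ) (v : ℂ) : (1 + ‖v‖) ^ 2 * ‖H v‖ ≤ bd H v := by
  unfold bd
  have h0 : 0 < 1 + ‖v‖ := by positivity
  have e : (1 + ‖v‖) ^ (-(8 : ℝ)) = (((1 + ‖v‖) ^ 4)⁻¹) ^ 2 := by
    rw [Real.rpow_neg h0.le, inv_pow, ← pow_mul]
    congr 1
    exact_mod_cast Real.rpow_natCast (1 + ‖v‖) 8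
  rw [e]
  have e2 : (1 + ‖v‖) ^ 2 * ‖H v‖ = ((1 + ‖v‖) ^ 6 * ‖H v‖) * ((1 + ‖v‖) ^ 4)⁻¹ := by
    field_simp
  rw [e2]
  nlinarith [sq_nonneg ((1 + ‖v‖) ^ 6 * ‖H v‖ - ((1 + ‖v‖) ^ 4)⁻¹)]

/-- `1 / ‖ξ‖` is integrable on the unit ball -/
lemma int_inv : Integrable (fun v : ℂ => (fun r : ℝ => if r < 1 then r⁻¹ else 0) ‖v‖) := by
  rw [integrable_fun_norm_addHaar (volume : Measure ℂ) (f := fun r : ℝ => if r < 1 then r⁻¹ else 0)]
  rw [Complex.finrank_real_complex]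
  have h : IntegrableOn ((Iio (1 : ℝ)).indicator (fun _ => (1 : ℝ))) (Ioi 0) := by
    rw [integrableOn_indicator_iff measurableSet_Iio]
    have : Iio (1 : ℝ) ∩ Ioi 0 = Ioo 0 1 := by
      ext x; simp [and_comm]
    rw [this]
    simp
  refine h.congr_fun ?_ measurableSet_Ioi
  intro r hr
  have hr0 : (0 : ℝ) < r := hr
  by_cases h1 : r < 1
  · simp [h1, hr0.ne']
  · simp [h1]

lemma ff_int {H : ℂ → ℂ} (hH : Continuous H) {B : ℝ} (hB : ∀ ξ, ‖H ξ‖ ≤ B)
    (h2 : (∫⁻ ξ, ‖(((1 + ‖ξ‖) ^ 6 : ℝ) : ℂ) * H ξ‖ₑ ^ 2) < ⊤) (n : ℕ) (hn : n ≤ 3) :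
    Integrable (fun v => ‖v‖ ^ n * ‖ff H v‖) := by
  have hb := bd_int hH h2
  have hm : AEStronglyMeasurable (fun v => ‖v‖ ^ n * ‖ff H v‖) :=
    (Continuous.aestronglyMeasurable (by fun_prop)).mul (ff_meas hH).norm
  have hπ : 1 ≤ Real.pi := by linarith [Real.pi_gt_three]
  have hB0 : 0 ≤ B := (norm_nonneg _).trans (hB 0)
  refine ((int_inv.const_mul B).add hb).mono' hm (Eventually.of_forall fun v => ?_)
  rw [Real.norm_eq_abs, abs_of_nonneg (by positivity), norm_ff]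
  have hbd := bd_ge H v
  have h0 : 0 ≤ ‖v‖ := norm_nonneg v
  have hbd0 : 0 ≤ bd H v := le_trans (by positivity) hbd
  have hH0 : 0 ≤ ‖H v‖ := norm_nonneg _
  rcases eq_or_lt_of_le h0 with h00 | hpos
  · rw [← h00]
    simp only [mul_zero, div_zero, Pi.add_apply]
    have : 0 ≤ B * (if ‖v‖ < 1 then ‖v‖⁻¹ else 0) := by
      apply mul_nonneg hB0
      split_ifs
      · positivity
      · exact le_rfl
    linarith
  simp only [Pi.add_apply]
  by_cases hlt : ‖v‖ < 1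
  · rw [if_pos hlt]
    have e1 : ‖v‖ ^ n * (‖H v‖ / (Real.pi * ‖v‖)) ≤ B * ‖v‖⁻¹ := by
      have h3 : ‖v‖ ^ n ≤ 1 := pow_le_one₀ h0 hlt.le
      have h4 : ‖H v‖ / (Real.pi * ‖v‖) ≤ B * ‖v‖⁻¹ := by
        rw [← div_eq_mul_inv]
        apply div_le_div₀ hB0 (hB v) hpos
        nlinarith
      calc _ ≤ 1 * (‖H v‖ / (Real.pi * ‖v‖)) := by gcongr
        _ ≤ _ := by linarith
    linarith
  · rw [if_neg hlt]
    push Not at hlt
    have h5 : ‖v‖ ^ n ≤ ‖v‖ ^ 3 := pow_le_pow_right₀ hlt hn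
    have e1 : ‖v‖ ^ n * (‖H v‖ / (Real.pi * ‖v‖)) ≤ (1 + ‖v‖) ^ 2 * ‖H v‖ := by
      rw [mul_div_assoc', div_le_iff₀ (by positivity)]
      have h6 : ‖v‖ ^ 3 ≤ (1 + ‖v‖) ^ 2 * (Real.pi * ‖v‖) := by
        have : ‖v‖ ^ 2 ≤ (1 + ‖v‖) ^ 2 := by gcongr; linarith
        nlinarith [mul_nonneg h0 (sq_nonneg (1 + ‖v‖)), mul_nonneg (mul_nonneg h0 (sq_nonneg (1 + ‖v‖))) (sub_nonneg.2 hπ)]
      calc ‖v‖ ^ n * ‖H v‖ ≤ ((1 + ‖v‖) ^ 2 * (Real.pi * ‖v‖)) * ‖H v‖ := by
            gcongr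
            exact h5.trans h6
        _ = _ := by ring
    linarith

theorem t_LA : S_LA := by
  intro H hH ⟨B, hB⟩ h2
  have hint := ff_int hH hB h2
  have i0 : Integrable (ff H) := by
    have := hint 0 (by norm_num)
    simp only [pow_zero, one_mul] at this
    exact (integrable_norm_iff (ff_meas hH)).1 this
  have i1 : Integrable (fun v => ‖v‖ * ‖ff H v‖) := by
    have := hint 1 (by norm_num)
    simpa using this
  have hC : ContDiff ℝ 3 (𝓕 (ff H)) :=
    Real.contDiff_fourier (N := 3) fun n hn => hint n (by exact_mod_cast hn)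
  refine ⟨fun x => 𝓕 (ff H) (-x), hC.comp contDiff_neg, ?_, ?_⟩
  · have h := tendsto_integral_exp_inner_smul_cocompact (ff H)
    have h' : Tendsto (𝓕 (ff H)) (cocompact ℂ) (𝓝 0) := h
    exact h'.comp (Homeomorph.neg ℂ).isClosedEmbedding.tendsto_cocompact
  · intro x
    have hsm : Integrable (VectorFourier.fourierSMulRight (innerSL ℝ) (ff H)) := by
      refine (i1.const_mul (2 * Real.pi * ‖innerSL (E := ℂ) ℝ‖)).mono' ?_ (Eventually.of_forall fun v => ?_)
      · exact (ff_meas hH).fourierSMulRight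
      · exact (VectorFourier.norm_fourierSMulRight_le _ _ _).trans (le_of_eq (by ring))
    have hd : ∀ w : ℂ, fderiv ℝ (fun x => 𝓕 (ff H) (-x)) x w =
        𝓕 (fun v => (2 * Real.pi * I) * ((⟪v, w⟫ : ℝ) : ℂ) * ff H v) (-x) := by
      intro w
      have h1 := Real.hasFDerivAt_fourier i0 i1 (-x)
      have h2' : HasFDerivAt (fun x : ℂ => -x) (-ContinuousLinearMap.id ℝ ℂ) x := (hasFDerivAt_id x).neg
      have h3 := h1.comp x h2'
      have h4 : fderiv ℝ (fun x => 𝓕 (ff H) (-x)) x = _ := h3.fderiv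
      rw [h4]
      simp only [ContinuousLinearMap.comp_apply, neg_apply,
        ContinuousLinearMap.id_apply, map_neg]
      rw [Real.fourier_continuousLinearMap_apply hsm, Real.fourier_eq, Real.fourier_eq, ← integral_neg]
      congr 1
      ext v
      rw [VectorFourier.fourierSMulRight_apply, innerSL_apply_apply, ← smul_neg]
      congr 1
      rw [neg_smul, neg_neg, Complex.real_smul, smul_eq_mul]
      ring
    unfold du dv
    rw [hd, hd, Real.fourierInv_eq_fourier_neg, Real.fourierInv_eq_fourier_neg]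
    have hI : ∀ w : ℂ, Integrable (fun v => (2 * Real.pi * I) * ((⟪v, w⟫ : ℝ) : ℂ) * ff H v) := by
      intro w
      refine (i1.const_mul (2 * Real.pi * ‖w‖)).mono' ?_ (Eventually.of_forall fun v => ?_)
      · exact (Continuous.aestronglyMeasurable (by fun_prop)).mul (ff_meas hH)
      · rw [norm_mul, norm_mul, norm_mul, norm_mul, norm_I, Complex.norm_real, Complex.norm_real,
          Real.norm_eq_abs, Real.norm_eq_abs, abs_of_pos Real.pi_pos]
        have h7 := abs_real_inner_le_norm v w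
        have h8 : ‖(2 : ℂ)‖ = 2 := by simp
        rw [h8, mul_one]
        calc 2 * Real.pi * |⟪v, w⟫| * ‖ff H v‖ ≤ 2 * Real.pi * (‖v‖ * ‖w‖) * ‖ff H v‖ := by gcongr
          _ = _ := by ring
    have hexp : ∀ g : ℂ → ℂ, Integrable g →
        Integrable (fun v => Real.fourierChar (-⟪v, -x⟫) • g v) := by
      intro g hg
      exact (Real.fourierIntegral_convergent_iff (-x)).2 hg
    have hc : ∀ (a b c : ℂ) (g1 g2 g3 : ℂ → ℂ), Integrable g1 → Integrable g2 →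
        (∀ᵐ v, a * (g1 v + b * g2 v) = g3 v) →
        a * (𝓕 g1 (-x) + b * 𝓕 g2 (-x)) = 𝓕 g3 (-x) := by
      intro a b c g1 g2 g3 hg1 hg2 h
      rw [Real.fourier_eq, Real.fourier_eq, Real.fourier_eq, ← integral_const_mul, ← integral_add (hexp g1 hg1)
        ((hexp g2 hg2).const_mul b), ← integral_const_mul]
      apply integral_congr_ae
      filter_upwards [h] with v hv
      rw [← hv]
      simp only [Circle.smul_def, smul_eq_mul]
      ring
    have hae : ∀ᵐ v : ℂ, v ≠ 0 := by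
      rw [ae_iff]
      simp
    have r1 : ∀ v : ℂ, ((⟪v, (1 : ℂ)⟫ : ℝ) : ℂ) = (v.re : ℂ) := by
      intro v; simp [Complex.inner]
    have r2 : ∀ v : ℂ, ((⟪v, I⟫ : ℝ) : ℂ) = (v.im : ℂ) := by
      intro v; simp [Complex.inner]
    have hπ : (Real.pi : ℂ) ≠ 0 := by exact_mod_cast Real.pi_ne_zero
    constructor
    · rw [← hc (1 / 2) I 0 _ _ H (hI 1) (hI I) ?_]
      · ring
      · filter_upwards [hae] with v hv
        rw [r1, r2]
        unfold ff
        have e : (v.re : ℂ) + v.im * I = v := Complex.re_add_im v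
        have e2 : (1 : ℂ) / 2 * (2 * Real.pi * I * v.re * (H v / (Real.pi * I * v)) +
            I * (2 * Real.pi * I * v.im * (H v / (Real.pi * I * v)))) =
            ((v.re : ℂ) + v.im * I) * (Real.pi * I) * (H v / (Real.pi * I * v)) := by ring
        rw [e2, e]
        field_simp
    · rw [← hc (1 / 2) (-I) 0 _ _ (fun ξ => sym ξ * H ξ) (hI 1) (hI I) ?_]
      · ring
      · filter_upwards [hae] with v hv
        rw [r1, r2]
        unfold ff sym
        have e : (v.re : ℂ) - v.im * I = (starRingEnd ℂ) v := by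
          apply Complex.ext <;> simp
        have e2 : (1 : ℂ) / 2 * (2 * Real.pi * I * v.re * (H v / (Real.pi * I * v)) +
            -I * (2 * Real.pi * I * v.im * (H v / (Real.pi * I * v)))) =
            ((v.re : ℂ) - v.im * I) * (Real.pi * I) * (H v / (Real.pi * I * v)) := by ring
        rw [e2, e]
        field_simp

end Pool.Agent.Q277.PD
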